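import Mathlib
import Pool.Agent.H612R3.Bp5

set_option autoImplicit false
open scoped InnerProductSpace ComplexConjugate ENNReal Matrix
open Filter Topology MeasureTheory AddCircle
open Pool.Agent.Helper917.Hardy

open Pool.Agent.H612R3.BpDefs

namespace Pool.Agent.Results.MP_a5aa7c_an.BlaschkePotapov

theorem result (n : ℕ) (_hn : 1 ≤ n) (Φ : Circ → Matrix (Fin n) (Fin n) ℂ) (hΦ : IsLinfty Φ) :
    (∃! T : HardySp n →L[ℂ] HardySp n, IsToeplitz Φ T) ∧
    ∀ T : HardySp n →L[ℂ] HardySp n, IsToeplitz Φ T → IsHyponormal T →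
      ∀ r : ℕ, HasCommRank T r →
      ∃ B : ℂ → Matrix (Fin n) (Fin n) ℂ, IsBlaschkePotapov B ∧
        MemE Φ (fun t => B (fourier 1 t)) ∧ IsBlaschkeOfDegree (fun z => (B z).det) r := by
  obtain ⟨h1, h2⟩ := Pool.Agent.H612R3.Bp5.raw n Φ hΦ
  have key : ∀ T : HardySp n →L[ℂ] HardySp n, IsToeplitz Φ T ↔
      Pool.Agent.H612R3.Bp5.IsToeplitzRaw (n := n) Φ T := by
    intro T
    constructor
    · intro h f
      obtain ⟨g, hg, hT⟩ := h f
      exact ⟨g, hg, Subtype.ext hT⟩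
    · intro h f
      obtain ⟨g, hg, hT⟩ := h f
      exact ⟨g, hg, congrArg Subtype.val hT⟩
  constructor
  · obtain ⟨T, hT, hu⟩ := h1
    exact ⟨T, (key T).2 hT, fun T' hT' => hu T' ((key T').1 hT')⟩
  · intro T hT hp r hr
    have h3 := h2 T ((key T).1 hT) hp hr.1
    obtain ⟨B, hB1, hB2, hB3⟩ := h3
    refine ⟨B, hB1, hB2, ?_⟩
    have h4 := hr.2
    subst h4
    exact hB3

end Pool.Agent.Results.MP_a5aa7c_an.BlaschkePotapov
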